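import Pool.Agent.Helper14.TT.StG

/-!
# Project TT, module ChiD: the quadratic character modulo `5 l`
-/

set_option autoImplicit false

namespace Pool.Agent.Helper7.TT

open Pool.Agent.Helper14.TT Pool.Agent.Helper14.CV

/-- A character modulo `p q` which is trivial on the residues `1` modulo `p` is excluded. -/
private lemma notFac (p q c : ℕ) (hpq : p.Coprime q) (χ : DirichletCharacter ℂ (p * q))
    (hχ : ∀ m : ℕ, χ (m : ZMod (p * q)) = ((jacobiSym (m : ℤ) (p * q) : ℤ) : ℂ))
    (χq : DirichletCharacter ℂ q) (hq1 : χq ≠ 1)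
    (hχq : ∀ m : ℕ, χq (m : ZMod q) = ((jacobiSym (m : ℤ) q : ℤ) : ℂ))
    (hp0 : p ≠ 0) (hq0 : q ≠ 0) (hc : c ∣ p) (hf : χ.FactorsThrough c) : False := by
  haveI : NeZero p := ⟨hp0⟩
  haveI : NeZero q := ⟨hq0⟩
  obtain ⟨u, hu⟩ : ∃ u : (ZMod q)ˣ, χq u ≠ 1 := by
    by_contra hcon
    push Not at hcon
    apply hq1
    ext u
    rw [hcon u, MulChar.one_apply_coe]
  obtain ⟨m, hm1, hm2⟩ := Nat.chineseRemainder hpq 1 (u : ZMod q).val
  have hcm : m.Coprime (p * q) := by
    apply Nat.Coprime.mul_right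
    · have := hm1.gcd_eq
      rw [Nat.gcd_one_left] at this
      exact this
    · have h1 := hm2.gcd_eq
      have h2 : Nat.Coprime (u : ZMod q).val q := ZMod.val_coe_unit_coprime u
      rw [Nat.Coprime] at h2 ⊢
      rw [h1, h2]
  obtain ⟨hd, χ0, h0⟩ := hf
  have hcast : ((ZMod.unitOfCoprime m hcm : (ZMod (p * q))ˣ) : ZMod (p * q)) = (m : ZMod (p * q)) :=
    ZMod.coe_unitOfCoprime m hcm
  have h1 : χ (m : ZMod (p * q)) = 1 := by
    rw [h0, ← hcast, DirichletCharacter.changeLevel_eq_cast_of_dvd, hcast, ZMod.cast_natCast hd]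
    have h3 : ((m : ℕ) : ZMod c) = 1 := by
      have : ((m : ℕ) : ZMod c) = ((1 : ℕ) : ZMod c) :=
        (ZMod.natCast_eq_natCast_iff m 1 c).2 (Nat.ModEq.of_dvd hc hm1)
      simpa using this
    rw [h3, map_one]
  have h2 : χ (m : ZMod (p * q)) = χq (m : ZMod q) := by
    rw [hχ, hχq, jacobiSym.mul_right]
    have h4 : jacobiSym (m : ℤ) p = 1 := by
      rw [jacobiSym.mod_left, show ((m : ℤ) % (p : ℤ)) = (1 : ℤ) % (p : ℤ) by
        exact_mod_cast hm1, ← jacobiSym.mod_left, jacobiSym.one_left]
    rw [h4, one_mul]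
  have h5 : ((m : ℕ) : ZMod q) = (u : ZMod q) := by
    rw [(ZMod.natCast_eq_natCast_iff m _ q).2 hm2, ZMod.natCast_zmod_val]
  rw [h5] at h2
  exact hu (h2.symm.trans h1)

theorem hChiD (hChi : Chi) : ChiD := by
  intro D hD
  rcases hD with ⟨hp, h8⟩ | rfl | ⟨l, hl, hl8, rfl⟩
  · exact hChi D hp (by rintro rfl; omega)
  · exact hChi 7 (by norm_num) (by norm_num)
  · have h5p : Nat.Prime 5 := by norm_num
    have hl5 : l ≠ 5 := by rintro rfl; omega
    have hcop : Nat.Coprime 5 l := (Nat.coprime_primes h5p hl).2 (Ne.symm hl5)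
    haveI : NeZero l := ⟨hl.ne_zero⟩
    haveI : NeZero (5 * l) := ⟨mul_ne_zero (by norm_num) hl.ne_zero⟩
    obtain ⟨χ5, p5, v5, _⟩ := hChi 5 h5p (by norm_num)
    obtain ⟨χl, pl, vl, _⟩ := hChi l hl (by rintro rfl; omega)
    have n5 : χ5 ≠ 1 := by
      rintro rfl
      rw [DirichletCharacter.isPrimitive_def, DirichletCharacter.conductor_one] at p5
      norm_num at p5
    have nl : χl ≠ 1 := by
      rintro rfl
      rw [DirichletCharacter.isPrimitive_def, DirichletCharacter.conductor_one] at pl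
      exact hl.one_lt.ne pl
    let χ : DirichletCharacter ℂ (5 * l) :=
      DirichletCharacter.changeLevel (dvd_mul_right 5 l) χ5 *
        DirichletCharacter.changeLevel (dvd_mul_left l 5) χl
    have hval : ∀ m : ℕ, χ (m : ZMod (5 * l)) = ((jacobiSym (m : ℤ) (5 * l) : ℤ) : ℂ) := by
      intro m
      by_cases hm : m.Coprime (5 * l)
      · have hcast : ((ZMod.unitOfCoprime m hm : (ZMod (5 * l))ˣ) : ZMod (5 * l))
            = (m : ZMod (5 * l)) := ZMod.coe_unitOfCoprime m hm
        rw [jacobiSym.mul_right, Int.cast_mul, ← v5, ← vl, ← hcast]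
        simp only [χ, MulChar.mul_apply]
        rw [DirichletCharacter.changeLevel_eq_cast_of_dvd,
          DirichletCharacter.changeLevel_eq_cast_of_dvd, hcast,
          ZMod.cast_natCast (dvd_mul_right 5 l), ZMod.cast_natCast (dvd_mul_left l 5)]
      · rw [MulChar.map_nonunit χ (fun h => hm ((ZMod.isUnit_iff_coprime m (5 * l)).1 h)),
          jacobiSym.eq_zero_iff_not_coprime.2 (by
            intro h
            exact hm (by
              rw [Nat.Coprime]
              have h' : Int.gcd (m : ℤ) ((5 * l : ℕ) : ℤ) = 1 := h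
              rwa [Int.gcd_natCast_natCast] at h'))]
        simp
    have hval' : ∀ m : ℕ, χ (m : ZMod (5 * l)) = ((jacobiSym (m : ℤ) (l * 5) : ℤ) : ℂ) := by
      intro m
      rw [hval m, mul_comm 5 l]
    have hq : χ.IsQuadratic := by
      intro a
      have h1 := hval a.val
      rw [ZMod.natCast_zmod_val] at h1
      rw [h1]
      rcases jacobiSym.trichotomy ((a.val : ℕ) : ℤ) (5 * l) with h | h | h
      · left; rw [h]; simp
      · right; left; rw [h]; simp
      · right; right; rw [h]; simp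
    refine ⟨χ, ?_, hval, fun m => ?_⟩
    · rw [DirichletCharacter.isPrimitive_def]
      have hd := DirichletCharacter.conductor_dvd_level χ
      have hf := DirichletCharacter.factorsThrough_conductor χ
      by_contra hne
      have hcase : χ.conductor ∣ 5 ∨ χ.conductor ∣ l := by
        obtain ⟨a, b, ha, hb, hab⟩ := exists_dvd_and_dvd_of_dvd_mul hd
        rcases (Nat.dvd_prime h5p).1 ha with h | h
        · right
          rw [hab, h, one_mul]
          exact hb
        · rcases (Nat.dvd_prime hl).1 hb with h' | h'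
          · left
            rw [hab, h', mul_one]
            exact ha
          · exact absurd (by rw [hab, h, h']) hne
      rcases hcase with h | h
      · exact notFac 5 l _ hcop χ hval χl nl vl (by norm_num) hl.ne_zero h hf
      · have key : ∀ (N : ℕ) (hN : N = l * 5) (ψ : DirichletCharacter ℂ N)
            (hψ : ∀ m : ℕ, ψ (m : ZMod N) = ((jacobiSym (m : ℤ) N : ℤ) : ℂ)) (c : ℕ), c ∣ l →
            ψ.FactorsThrough c → False := by
          intro N hN ψ hψ c hc hfc
          subst hN
          exact notFac l 5 c hcop.symm ψ hψ χ5 n5 v5 hl.ne_zero (by norm_num) hc hfc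
        exact key (5 * l) (mul_comm 5 l) χ hval _ h hf
    · rw [hq.inv]
      exact hval m

end Pool.Agent.Helper7.TT
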