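import Pool.Agent.Helper14.TT.StL
import Pool.Agent.Helper14.CV.Basic

/-!
# Project TT, module X3: the twisted path modulo 2 for `l = 3` modulo `8`
-/

set_option autoImplicit false

namespace Pool.Agent.Helper7.TT

open Pool.Agent.Helper14.TT Pool.Agent.Helper14.CV

private lemma jac (l : ℕ) (hl : l.Prime) (a : ℕ) (h0 : 0 < a) (h1 : a < l) (v : ZMod 2) :
    jacobiSym (a : ℤ) l • v = v := by
  have hg : Int.gcd (a : ℤ) (l : ℤ) = 1 := by
    rw [Int.gcd_natCast_natCast]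
    exact Nat.coprime_comm.1 ((Nat.Prime.coprime_iff_not_dvd hl).2
      (Nat.not_dvd_of_pos_of_lt h0 h1))
  rcases jacobiSym.eq_one_or_neg_one hg with h | h
  · rw [h, one_smul]
  · rw [h, neg_smul, one_smul, CharTwo.neg_eq]

private lemma pairSum (k : ℕ) (g : ℕ → ZMod 2) (α : ZMod 2) (h0 : g 0 = 0)
    (h : ∀ a, 0 < a → a < 2 * k + 1 → g a + g (2 * k + 1 - a) = α) :
    ∑ a ∈ Finset.range (2 * k + 1), g a = (k : ZMod 2) * α := by
  rw [Finset.sum_range_succ', h0, add_zero, two_mul, Finset.sum_range_add]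
  rw [← Finset.sum_range_reflect (fun a => g (k + a + 1)) k, ← Finset.sum_add_distrib]
  have h2 : ∀ a ∈ Finset.range k, g (a + 1) + g (k + (k - 1 - a) + 1) = α := by
    intro a ha
    have ha' := Finset.mem_range.1 ha
    have e : k + (k - 1 - a) + 1 = 2 * k + 1 - (a + 1) := by omega
    rw [e]
    exact h (a + 1) (Nat.succ_pos a) (by omega)
  rw [Finset.sum_congr rfl h2, Finset.sum_const, Finset.card_range, nsmul_eq_mul]

/-- `G(-p, q)` is a symbol. -/
private lemma symStar {R : Type} [AddCommGroup R] {r s : ℕ} {G : ℤ → ℤ → R} (hG : Sym r s G) :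
    Sym r s (act (-1) 0 0 1 G) := by
  obtain ⟨h1, h2⟩ := hG
  refine ⟨h1.act (by norm_num), fun a b c d hd hb hc => ?_⟩
  have e1 : act a b c d (act (-1) 0 0 1 G) = act (-1) 0 0 1 (act a (-b) (-c) d G) := by
    rw [act_act, act_act]
    congr 1 <;> ring
  rw [e1]
  exact (h2 a (-b) (-c) d (by linear_combination hd) ((dvd_neg).2 hb) ((dvd_neg).2 hc)).act
    (by norm_num)

private lemma symAdd {R : Type} [AddCommGroup R] {r s : ℕ} {G H : ℤ → ℤ → R} (hG : Sym r s G)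
    (hH : Sym r s H) : Sym r s (G + H) :=
  ⟨hG.1.add hH.1, fun a b c d hd hb hc => by
    rw [act_add]
    exact (hG.2 a b c d hd hb hc).add (hH.2 a b c d hd hb hc)⟩

theorem hX3 (hNeg : NegT) (hTree : Tree) (hEdg : StEdg) (hPlA : StPlA) : X3 := by
  intro l r s G F1 hl hl8 hr hs hG hF hW
  obtain ⟨β, γ, hN⟩ := hNeg r s F1 hr hs hW
  set α := ((L3 : Module.End (ZMod 2) (Fn (2 ^ r) (2 ^ s))) F1) 0 0 with hα
  have hSH : Sym (r + 1) (s + 1) (G + act (-1) 0 0 1 G) := symAdd hG (symStar hG)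
  have hHom := hG.1
  -- the edge function of the sum
  have hE : ∀ (x : ZMod (2 ^ r)) (y : ZMod (2 ^ s)),
      edgeF 1 1 0 0 1 (G + act (-1) 0 0 1 G) x y = α * (par x * par y) + β * par x + γ * par y := by
    intro x y
    rw [← hN x y, hF x y, hF (-x) (-y)]
    have hP := hPlA 1 r s x y
    generalize (x.val : ℤ) = b at hP
    generalize hY : rY 1 x y = c at hP
    generalize (1 + 2 ^ (1 + 1) * b * c : ℤ) = d at hP
    obtain ⟨p1, p2, p3⟩ := hP
    have hP' : Pl 1 1 (-b) (-c) d (-x) (-y) := by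
      refine ⟨by linear_combination p1, ?_, ?_⟩
      · push_cast
        rw [p2]
        ring
      · push_cast
        rw [p3]
        ring
    have n1 : (1 : ℤ) ≠ 0 ∨ (0 : ℤ) ≠ 0 := Or.inl one_ne_zero
    have n2 : (0 : ℤ) ≠ 0 ∨ (1 : ℤ) ≠ 0 := Or.inr one_ne_zero
    have q1 := hEdg (ZMod 2) _ 1 r s _ hSH 1 0 0 1 n1 n2 x y 1 b c d ⟨p1, p2, p3⟩
    have q2 := hEdg (ZMod 2) _ 1 r s _ hG 1 0 0 1 n1 n2 x y 1 b c d ⟨p1, p2, p3⟩
    have q3 := hEdg (ZMod 2) _ 1 r s _ hG 1 0 0 1 n1 n2 (-x) (-y) 1 (-b) (-c) d hP'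
    rw [q1, q2, q3]
    have e1 : (1 * 1 + 2 ^ 1 * (-b) * 0 : ℤ) = 1 := by ring
    have e2 : (2 * (-c) * 1 + d * 0 : ℤ) = -(2 * c) := by ring
    have e3 : (1 * 0 + 2 ^ 1 * (-b) * 1 : ℤ) = -(2 * b) := by ring
    have e4 : (2 * (-c) * 0 + d * 1 : ℤ) = d := by ring
    have e5 : (1 * 1 + 2 ^ 1 * b * 0 : ℤ) = 1 := by ring
    have e6 : (2 * c * 1 + d * 0 : ℤ) = 2 * c := by ring
    have e7 : (1 * 0 + 2 ^ 1 * b * 1 : ℤ) = 2 * b := by ring
    have e8 : (2 * c * 0 + d * 1 : ℤ) = d := by ring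
    rw [e1, e2, e3, e4, e5, e6, e7, e8]
    simp only [Pi.add_apply, act]
    have f1 : (-1 * 1 + 0 * (2 * c) : ℤ) = -1 := by ring
    have f2 : (0 * 1 + 1 * (2 * c) : ℤ) = 2 * c := by ring
    have f3 : (-1 * (2 * b) + 0 * d : ℤ) = -(2 * b) := by ring
    have f4 : (0 * (2 * b) + 1 * d : ℤ) = d := by ring
    rw [f1, f2, f3, f4]
    have f5 : G (-1) (2 * c) = G 1 (-(2 * c)) := by
      have := hHom (-1) 1 (-(2 * c)) (by norm_num) (Or.inl one_ne_zero)
      rw [← this]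
      congr 1 <;> ring
    rw [f5]
    ring
  have hT := hTree r s _ α β γ hr hs hSH hE
  -- the translation
  have hshift : ∀ p q : ℤ, (p ≠ 0 ∨ q ≠ 0) → G (p + 2 ^ (r + 1) * q) q = G p q := by
    obtain ⟨k, hk⟩ := hG.2 1 (2 ^ (r + 1)) 0 1 (by ring) dvd_rfl (dvd_zero _)
    have h1 := hk 1 0 (Or.inl one_ne_zero)
    simp only [act] at h1 hk
    have h2 : k = 0 := by
      have e1 : (1 * 1 + 2 ^ (r + 1) * 0 : ℤ) = 1 := by ring
      have e2 : (0 * 1 + 1 * 0 : ℤ) = 0 := by ring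
      rw [e1, e2] at h1
      exact (left_eq_add.1 h1)
    intro p q hpq
    have h3 := hk p q hpq
    rw [h2, add_zero] at h3
    rw [← h3]
    congr 1 <;> ring
  have hm1 : G (-1) 0 = G 1 0 := by
    have := hHom (-1) 1 0 (by norm_num) (Or.inl one_ne_zero)
    rw [← this]
    congr 1
  -- the length of the sum
  obtain ⟨j, hj⟩ : ∃ j : ℕ, l = 8 * j + 3 := ⟨l / 8, by omega⟩
  have hk2 : l = 2 * (4 * j + 1) + 1 := by omega
  have hl1 : 1 < l := hl.one_lt
  unfold eXb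
  have key : ∑ a ∈ Finset.range (2 * (4 * j + 1) + 1),
      jacobiSym (a : ℤ) l • (G (2 ^ (r + 1) * (a : ℤ)) l - G 1 0) = ((4 * j + 1 : ℕ) : ZMod 2) * α := by
    refine pairSum (4 * j + 1) _ α ?_ ?_
    · have h0 : jacobiSym ((0 : ℕ) : ℤ) l = 0 := by
        rw [Nat.cast_zero]
        exact jacobiSym.zero_left hl1
      show jacobiSym ((0 : ℕ) : ℤ) l • _ = _
      rw [h0, zero_smul]
    · intro a ha0 ha1
      rw [← hk2] at ha1 ⊢
      show jacobiSym (a : ℤ) l • (G (2 ^ (r + 1) * (a : ℤ)) l - G 1 0) +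
        jacobiSym ((l - a : ℕ) : ℤ) l • (G (2 ^ (r + 1) * ((l - a : ℕ) : ℤ)) l - G 1 0) = α
      rw [jac l hl a ha0 ha1, jac l hl (l - a) (by omega) (by omega)]
      have hl0 : (l : ℤ) ≠ 0 := by
        have : 0 < l := by omega
        exact_mod_cast this.ne'
      have e1 : G (2 ^ (r + 1) * ((l - a : ℕ) : ℤ)) l = G (-(2 ^ (r + 1) * (a : ℤ))) l := by
        rw [← hshift (-(2 ^ (r + 1) * (a : ℤ))) l (Or.inr hl0)]
        rw [Nat.cast_sub ha1.le]
        congr 1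
        ring
      rw [e1]
      have hcop : IsCoprime (2 ^ (r + 1) * (a : ℤ)) (l : ℤ) := by
        have h2l : Nat.Coprime (2 ^ (r + 1)) l := by
          refine Nat.Coprime.pow_left _ ?_
          rw [Nat.coprime_primes Nat.prime_two hl]
          omega
        have hal : Nat.Coprime a l := Nat.coprime_comm.1 ((Nat.Prime.coprime_iff_not_dvd hl).2
          (Nat.not_dvd_of_pos_of_lt ha0 ha1))
        have := Nat.isCoprime_iff_coprime.2 (Nat.Coprime.mul_left h2l hal)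
        push_cast at this
        exact this
      have hev : Even (2 ^ (r + 1) * (a : ℤ)) := by
        refine Even.mul_right ?_ _
        exact (even_two).pow_of_ne_zero (Nat.succ_ne_zero r)
      have hod : Odd (l : ℤ) := ⟨4 * j + 1, by rw [hj]; push_cast; ring⟩
      have h3 := (hT _ _ hcop).1 hev hod
      have h4 : (((((l : ℤ) ^ 2 - 1) / 8 : ℤ)) : ZMod 2) = 1 := by
        have e5 : (((l : ℤ) ^ 2 - 1) / 8 : ℤ) = 2 * (4 * j ^ 2 + 3 * j) + 1 := by
          rw [hj]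
          refine Int.ediv_eq_of_eq_mul_left (by norm_num) ?_
          push_cast
          ring
        rw [e5]
        push_cast
        have : (2 : ZMod 2) = 0 := rfl
        rw [this, zero_mul, zero_add]
      have h5 : (((2 ^ (r + 1) * (a : ℤ)) / 2 : ℤ) : ZMod 2) = 0 := by
        obtain ⟨r', rfl⟩ : ∃ r', r = r' + 1 := ⟨r - 1, by omega⟩
        have e5 : ((2 ^ (r' + 1 + 1) * (a : ℤ)) / 2 : ℤ) = 2 * (2 ^ r' * a) := by
          refine Int.ediv_eq_of_eq_mul_left (by norm_num) ?_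
          ring
        rw [e5]
        push_cast
        have : (2 : ZMod 2) = 0 := rfl
        rw [this, zero_mul]
      rw [h4, h5, mul_one, mul_zero, add_zero] at h3
      simp only [Pi.add_apply, act] at h3
      have g1 : (-1 * (2 ^ (r + 1) * (a : ℤ)) + 0 * (l : ℤ) : ℤ) = -(2 ^ (r + 1) * (a : ℤ)) := by ring
      have g2 : (0 * (2 ^ (r + 1) * (a : ℤ)) + 1 * (l : ℤ) : ℤ) = l := by ring
      have g3 : (-1 * 1 + 0 * 0 : ℤ) = -1 := by ring
      have g4 : (0 * 1 + 1 * 0 : ℤ) = 0 := by ring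
      rw [g1, g2, g3, g4, hm1] at h3
      linear_combination h3
  rw [← hk2] at key
  rw [key]
  have h6 : ((4 * j + 1 : ℕ) : ZMod 2) = 1 := by
    push_cast
    have : (4 : ZMod 2) = 0 := rfl
    rw [this, zero_mul, zero_add]
  rw [h6, one_mul]

end Pool.Agent.Helper7.TT
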